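import Mathlib
import Pool.Agent.EMD33.Final

/-!
# Size times approximation factor of a sketch of the planar earth mover distance is `Ω(log² n)`
-/

set_option autoImplicit false

namespace Pool.Agent.Results.MP_549ead_lc.SketchTradeoff

open MeasureTheory

/-- Every public-coin one-way protocol with messages of `s` bits (message `L ω A`, the estimator
`E ω` gets the message and the whole set `B`) that approximates `EMD(A,B)` within the factor `c`
with probability `≥ 2/3` for all `A, B ⊆ [n]²` with `|A| = |B|` satisfies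
`c * s ≥ κ (log n)²`; in particular so does every `c`-approximate sketch of size `s`. -/
theorem result :
    ∃ κ : ℝ, 0 < κ ∧
      (∀ n : ℕ, 2 ≤ n → ∀ c : ℝ, 1 ≤ c → ∀ s : ℕ,
        ∀ (Ω : Type) (_ : MeasurableSpace Ω) (P : Measure Ω), P Set.univ = 1 →
        ∀ (L : Ω → Finset (Fin n × Fin n) → (Fin s → Bool))
          (E : Ω → (Fin s → Bool) → Finset (Fin n × Fin n) → ℝ),
          (∀ A B : Finset (Fin n × Fin n), A.card = B.card →
            MeasurableSet {ω | (∃ π : ↥A ≃ ↥B,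
                      (∑ a : ↥A, (|((a.1.1 : ℕ) : ℝ) - (((π a).1.1 : ℕ) : ℝ)|
                        + |((a.1.2 : ℕ) : ℝ) - (((π a).1.2 : ℕ) : ℝ)|))
                        ≤ E ω (L ω A) B) ∧
                   (∀ π : ↥A ≃ ↥B,
                      E ω (L ω A) B ≤ c * (∑ a : ↥A,
                        (|((a.1.1 : ℕ) : ℝ) - (((π a).1.1 : ℕ) : ℝ)|
                        + |((a.1.2 : ℕ) : ℝ) - (((π a).1.2 : ℕ) : ℝ)|)))} ∧
            (2 / 3 : ENNReal) ≤ P
              {ω | (∃ π : ↥A ≃ ↥B,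
                      (∑ a : ↥A, (|((a.1.1 : ℕ) : ℝ) - (((π a).1.1 : ℕ) : ℝ)|
                        + |((a.1.2 : ℕ) : ℝ) - (((π a).1.2 : ℕ) : ℝ)|))
                        ≤ E ω (L ω A) B) ∧
                   (∀ π : ↥A ≃ ↥B,
                      E ω (L ω A) B ≤ c * (∑ a : ↥A,
                        (|((a.1.1 : ℕ) : ℝ) - (((π a).1.1 : ℕ) : ℝ)|
                        + |((a.1.2 : ℕ) : ℝ) - (((π a).1.2 : ℕ) : ℝ)|)))}) →
          κ * (Real.log n) ^ 2 ≤ c * s) ∧
      (∀ n : ℕ, 2 ≤ n → ∀ c : ℝ, 1 ≤ c → ∀ s : ℕ,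
        ∀ μ : PMF ((Finset (Fin n × Fin n) → (Fin s → Bool)) ×
                    ((Fin s → Bool) → (Fin s → Bool) → ℝ)),
          (∀ A B : Finset (Fin n × Fin n), A.card = B.card →
            (2 / 3 : ENNReal) ≤ μ.toOuterMeasure
              {p | (∃ π : ↥A ≃ ↥B,
                      (∑ a : ↥A, (|((a.1.1 : ℕ) : ℝ) - (((π a).1.1 : ℕ) : ℝ)|
                        + |((a.1.2 : ℕ) : ℝ) - (((π a).1.2 : ℕ) : ℝ)|))
                        ≤ p.2 (p.1 A) (p.1 B)) ∧
                   (∀ π : ↥A ≃ ↥B,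
                      p.2 (p.1 A) (p.1 B) ≤ c * (∑ a : ↥A,
                        (|((a.1.1 : ℕ) : ℝ) - (((π a).1.1 : ℕ) : ℝ)|
                        + |((a.1.2 : ℕ) : ℝ) - (((π a).1.2 : ℕ) : ℝ)|)))}) →
          κ * (Real.log n) ^ 2 ≤ c * s) := by
  have main : ∀ n : ℕ, 2 ≤ n → ∀ c : ℝ, 1 ≤ c → ∀ s : ℕ,
        ∀ (Ω : Type) (_ : MeasurableSpace Ω) (P : Measure Ω), P Set.univ = 1 →
        ∀ (L : Ω → Finset (Fin n × Fin n) → (Fin s → Bool))
          (E : Ω → (Fin s → Bool) → Finset (Fin n × Fin n) → ℝ),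
          (∀ A B : Finset (Fin n × Fin n), A.card = B.card →
            MeasurableSet {ω | EMD33.Approx c A B (E ω (L ω A) B)} ∧
            (2 / 3 : ENNReal) ≤ P {ω | EMD33.Approx c A B (E ω (L ω A) B)}) →
          1 / 10 ^ 15 * (Real.log n) ^ 2 ≤ c * s := by
    intro n hn c hc s Ω mΩ P hP L E h
    have : IsProbabilityMeasure P := ⟨hP⟩
    exact EMD33.tradeoff hn c hc P L E (fun A B hAB => (h A B hAB).1)
      (fun A B hAB => (h A B hAB).2)
  refine ⟨1 / 10 ^ 15, by norm_num, main, ?_⟩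
  intro n hn c hc s μ h
  refine main n hn c hc s _ ⊤ (@PMF.toMeasure _ ⊤ μ) ?_ (fun p => p.1)
    (fun p m B => p.2 m (p.1 B)) ?_
  · exact (@PMF.toMeasure.isProbabilityMeasure _ ⊤ μ).measure_univ
  · intro A B hAB
    refine ⟨trivial, ?_⟩
    rw [@PMF.toMeasure_apply_eq_toOuterMeasure_apply _ ⊤ μ _ trivial]
    exact h A B hAB

end Pool.Agent.Results.MP_549ead_lc.SketchTradeoff
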